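import Pool.Agent.K3h87.WB.Main

/-!
# Sums of squares over stars, in Helmert coordinates, and the counting lemma

For MP_4d2320_co (weighted Brouwer inequalities), helper87.
-/

set_option autoImplicit false

open Finset Matrix

namespace Pool.Agent.K3h87.WB

/-- the square of the `j`-th Helmert coordinate -/
noncomputable def hel (x : ℕ → ℝ) (j : ℕ) : ℝ :=
  (∑ i ∈ range j, x i - j * x j) ^ 2 / (j * (j + 1))

theorem hel_nonneg (x : ℕ → ℝ) (j : ℕ) : 0 ≤ hel x j := by
  unfold hel
  positivity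

theorem sum_hel (x : ℕ → ℝ) (m : ℕ) (hm : 1 ≤ m) :
    ∑ j ∈ Ico 1 m, hel x j = ∑ i ∈ range m, x i ^ 2 - (∑ i ∈ range m, x i) ^ 2 / m := by
  induction m, hm using Nat.le_induction with
  | base => simp
  | succ m hm ih =>
    have hm0 : (m : ℝ) ≠ 0 := by
      have : (0 : ℝ) < m := by exact_mod_cast hm
      exact this.ne'
    have hm1 : (m : ℝ) + 1 ≠ 0 := by positivity
    rw [Finset.sum_Ico_succ_top hm, ih, Finset.sum_range_succ, Finset.sum_range_succ]
    unfold hel
    push_cast
    field_simp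
    ring

theorem star_hel (x : ℕ → ℝ) (j : ℕ) (hj : 1 ≤ j) :
    ∑ i ∈ range j, (x i - x j) ^ 2 = (j + 1) * hel x j + ∑ l ∈ Ico 1 j, hel x l := by
  have hj0 : (j : ℝ) ≠ 0 := by
    have : (0 : ℝ) < j := by exact_mod_cast hj
    exact this.ne'
  have hj1 : (j : ℝ) + 1 ≠ 0 := by positivity
  rw [sum_hel x j hj]
  have e1 : ∑ i ∈ range j, (x i - x j) ^ 2 =
      ∑ i ∈ range j, x i ^ 2 - 2 * x j * ∑ i ∈ range j, x i + j * x j ^ 2 := by
    rw [Finset.mul_sum]
    have e2 : (j : ℝ) * x j ^ 2 = ∑ _i ∈ range j, x j ^ 2 := by simp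
    rw [e2, ← Finset.sum_sub_distrib, ← Finset.sum_add_distrib]
    exact Finset.sum_congr rfl fun i _ => by ring
  rw [e1]
  unfold hel
  field_simp
  ring

theorem sum_hel_le (x : ℕ → ℝ) (m : ℕ) :
    ∑ j ∈ Ico 1 m, hel x j ≤ ∑ i ∈ range m, x i ^ 2 := by
  rcases Nat.lt_or_ge 0 m with hm | hm
  · rw [sum_hel x m hm]
    have : 0 ≤ (∑ i ∈ range m, x i) ^ 2 / m := by positivity
    linarith
  · have : m = 0 := by omega
    subst this
    simp

/-- as `weights_le`, with mass at most `k` -/
theorem weights_le' {ι : Type*} [DecidableEq ι] (I : Finset ι) (f w : ι → ℝ) (k : ℕ) (c : ℝ)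
    (hf : ∀ i ∈ I, 0 ≤ f i)
    (h0 : ∀ i ∈ I, 0 ≤ w i) (h1 : ∀ i ∈ I, w i ≤ 1) (hw : ∑ i ∈ I, w i ≤ k)
    (hc : ∀ s ⊆ I, s.card ≤ k → ∑ i ∈ s, f i ≤ c) : ∑ i ∈ I, f i * w i ≤ c := by
  rcases le_or_gt I.card k with hk | hk
  · refine le_trans (Finset.sum_le_sum fun i hi => ?_) (hc I (Finset.Subset.refl I) hk)
    nlinarith [hf i hi, h0 i hi, h1 i hi]
  obtain ⟨P, hPI, hPc, hPt⟩ := exists_top I f k hk.le
  refine le_trans ?_ (hc P hPI hPc.le)
  obtain ⟨τ, hτ, h2, h3⟩ : ∃ τ : ℝ, 0 ≤ τ ∧ (∀ a ∈ P, τ ≤ f a) ∧ ∀ b ∈ I, b ∉ P → f b ≤ τ := by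
    rcases P.eq_empty_or_nonempty with rfl | hne
    · have hI : I.Nonempty := Finset.card_pos.1 (by omega)
      obtain ⟨m, hmI, hm⟩ := Finset.exists_max_image I f hI
      exact ⟨f m, hf m hmI, by simp, fun b hb _ => hm b hb⟩
    · obtain ⟨m, hmP, hm⟩ := Finset.exists_min_image P f hne
      exact ⟨f m, hf m (hPI hmP), hm, fun b hb hbP => hPt m hmP b hb hbP⟩
  have e1 : ∑ i ∈ I, f i * w i - ∑ i ∈ P, f i =
      ∑ i ∈ I, (f i * w i - if i ∈ P then f i else 0) := by
    rw [Finset.sum_sub_distrib, Finset.sum_ite_mem, Finset.inter_eq_right.2 hPI]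
  have e2 : ∑ i ∈ I, (f i * w i - if i ∈ P then f i else 0) ≤
      ∑ i ∈ I, (τ * w i - if i ∈ P then τ else 0) := by
    refine Finset.sum_le_sum fun i hI => ?_
    by_cases hi : i ∈ P
    · simp only [hi, if_true]
      nlinarith [h2 i hi, h1 i hI]
    · simp only [hi, if_false, sub_zero]
      exact mul_le_mul_of_nonneg_right (h3 i hI hi) (h0 i hI)
  have e3 : ∑ i ∈ I, (τ * w i - if i ∈ P then τ else 0) ≤ 0 := by
    rw [Finset.sum_sub_distrib, Finset.sum_ite_mem, Finset.inter_eq_right.2 hPI,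
      ← Finset.mul_sum, Finset.sum_const, hPc]
    simp only [nsmul_eq_mul]
    nlinarith
  linarith

theorem sum_rank (s : Finset ℕ) :
    ∑ j ∈ s, (1 + (s.filter fun l => l < j).card) = (s.card + 1).choose 2 := by
  induction s using Finset.induction_on_max with
  | empty => simp
  | insert a s ha ih =>
    have has : a ∉ s := fun h => lt_irrefl a (ha a h)
    rw [Finset.sum_insert has, Finset.card_insert_of_notMem has]
    have e1 : (insert a s).filter (fun l => l < a) = s := by
      ext l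
      simp only [Finset.mem_filter, Finset.mem_insert]
      constructor
      · rintro ⟨h | h, h2⟩
        · omega
        · exact h
      · intro h
        exact ⟨Or.inr h, ha l h⟩
    have e2 : ∀ j ∈ s, (insert a s).filter (fun l => l < j) = s.filter fun l => l < j := by
      intro j hj
      ext l
      simp only [Finset.mem_filter, Finset.mem_insert]
      constructor
      · rintro ⟨h | h, h2⟩
        · have := ha j hj
          omega
        · exact ⟨h, h2⟩
      · rintro ⟨h, h2⟩
        exact ⟨Or.inr h, h2⟩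
    have e3 : (s.card + 1 + 1).choose 2 = (s.card + 1) + (s.card + 1).choose 2 := by
      rw [Nat.choose_succ_succ' (s.card + 1) 1, Nat.choose_one_right]
    rw [e1, Finset.sum_congr rfl fun j hj => by rw [e2 j hj], ih, e3]
    omega

/-- the eigenvalues of a threshold graph -/
noncomputable def mu (n : ℕ) (b : ℕ → Prop) [DecidablePred b] (l : ℕ) : ℝ :=
  (if b l then (l : ℝ) + 1 else 0) + ((range n).filter fun j => b j ∧ l < j).card

theorem mu_nonneg (n : ℕ) (b : ℕ → Prop) [DecidablePred b] (l : ℕ) : 0 ≤ mu n b l := by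
  unfold mu
  split_ifs <;> positivity

theorem sum_mu (n : ℕ) (b : ℕ → Prop) [DecidablePred b] (k : ℕ) (s : Finset ℕ) (hs : s ⊆ Ico 1 n)
    (hk : s.card ≤ k) :
    ∑ l ∈ s, mu n b l ≤ ∑ j ∈ (range n).filter (fun j => b j), (j : ℝ) + ((k + 1).choose 2 : ℕ) := by
  have h1 : ∑ l ∈ s, mu n b l = ∑ j ∈ (range n).filter (fun j => b j),
      (((s.filter fun l => l < j).card : ℝ) + if j ∈ s then (j : ℝ) + 1 else 0) := by
    unfold mu
    rw [Finset.sum_add_distrib, Finset.sum_add_distrib, add_comm]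
    congr 1
    · have e1 : ∀ l, (((range n).filter fun j => b j ∧ l < j).card : ℝ) =
          ∑ j ∈ (range n).filter (fun j => b j), if l < j then (1 : ℝ) else 0 := by
        intro l
        rw [Finset.sum_boole, Finset.filter_filter]
      have e2 : ∀ j, ((s.filter fun l => l < j).card : ℝ) = ∑ l ∈ s, if l < j then (1 : ℝ) else 0 := by
        intro j
        rw [Finset.sum_boole]
      rw [Finset.sum_congr rfl fun l _ => e1 l, Finset.sum_congr rfl fun j _ => e2 j,
        Finset.sum_comm]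
    · rw [Finset.sum_ite_mem, Finset.filter_inter, Finset.sum_filter]
      have e3 : range n ∩ s = s := Finset.inter_eq_right.2 fun l hl => by
        have := Finset.mem_Ico.1 (hs hl)
        exact Finset.mem_range.2 this.2
      rw [e3]
  rw [h1]
  have h2 : ∑ j ∈ (range n).filter (fun j => b j),
      (((s.filter fun l => l < j).card : ℝ) + if j ∈ s then (j : ℝ) + 1 else 0) ≤
      ∑ j ∈ (range n).filter (fun j => b j),
        ((j : ℝ) + if j ∈ s then 1 + ((s.filter fun l => l < j).card : ℝ) else 0) := by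
    refine Finset.sum_le_sum fun j _ => ?_
    by_cases hj : j ∈ s
    · simp only [hj, if_true]
      linarith
    · simp only [hj, if_false, add_zero]
      have : (s.filter fun l => l < j).card ≤ j := by
        calc (s.filter fun l => l < j).card ≤ (range j).card := by
              refine Finset.card_le_card fun l hl => ?_
              exact Finset.mem_range.2 (Finset.mem_filter.1 hl).2
          _ = j := Finset.card_range j
      exact_mod_cast this
  refine h2.trans ?_
  rw [Finset.sum_add_distrib]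
  refine add_le_add le_rfl ?_
  have h3 : ∑ j ∈ (range n).filter (fun j => b j),
      (if j ∈ s then 1 + ((s.filter fun l => l < j).card : ℝ) else 0) ≤
      ∑ j ∈ s, (1 + ((s.filter fun l => l < j).card : ℝ)) := by
    rw [Finset.sum_ite_mem]
    exact Finset.sum_le_sum_of_subset_of_nonneg Finset.inter_subset_right fun j _ _ => by positivity
  refine h3.trans ?_
  have h4 := sum_rank s
  have h5 : (s.card + 1).choose 2 ≤ (k + 1).choose 2 := Nat.choose_le_choose 2 (by omega)
  have h6 : ∑ j ∈ s, (1 + ((s.filter fun l => l < j).card : ℝ)) = ((s.card + 1).choose 2 : ℕ) := by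
    rw [← h4]
    push_cast
    rfl
  rw [h6]
  exact_mod_cast h5

end Pool.Agent.K3h87.WB
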