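import Mathlib

/-!
# Ky Fan's maximum principle for real symmetric matrices, and a layer lemma

For MP_4d2320_co (weighted Brouwer inequalities), helper87.
-/

set_option autoImplicit false

open Finset Matrix

namespace Pool.Agent.K3h87.WB

/-- the `c` largest values -/
theorem exists_top {ι : Type*} [DecidableEq ι] (E : Finset ι) (f : ι → ℝ) (c : ℕ) (hc : c ≤ E.card) :
    ∃ P ⊆ E, P.card = c ∧ ∀ a ∈ P, ∀ b ∈ E, b ∉ P → f b ≤ f a := by
  induction c with
  | zero => exact ⟨∅, by simp, by simp, by simp⟩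
  | succ c ih =>
    obtain ⟨P, hP, hPc, hPt⟩ := ih (by omega)
    have hne : (E \ P).Nonempty := by
      rw [← Finset.card_pos, Finset.card_sdiff_of_subset hP]
      omega
    obtain ⟨b, hb, hmax⟩ := Finset.exists_max_image (E \ P) f hne
    rw [Finset.mem_sdiff] at hb
    refine ⟨insert b P, ?_, ?_, ?_⟩
    · intro a ha
      rcases Finset.mem_insert.1 ha with rfl | ha
      · exact hb.1
      · exact hP ha
    · rw [Finset.card_insert_of_notMem hb.2, hPc]
    · intro a ha b' hb' hb'2
      rw [Finset.mem_insert, not_or] at hb'2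
      rcases Finset.mem_insert.1 ha with rfl | ha
      · exact hmax b' (Finset.mem_sdiff.2 ⟨hb', hb'2.2⟩)
      · exact hPt a ha b' hb' hb'2.2

/-- weights in `[0, 1]` of total mass `k`: a linear function is at most its value at `k` largest
coordinates -/
theorem weights_le {ι : Type*} [Fintype ι] [DecidableEq ι] (f w : ι → ℝ) (k : ℕ) (c : ℝ)
    (hk : k ≤ Fintype.card ι)
    (h0 : ∀ i, 0 ≤ w i) (h1 : ∀ i, w i ≤ 1) (hw : ∑ i, w i = k)
    (hc : ∀ s : Finset ι, s.card = k → ∑ i ∈ s, f i ≤ c) : ∑ i, f i * w i ≤ c := by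
  obtain ⟨P, -, hPc, hPt⟩ := exists_top Finset.univ f k (by simpa using hk)
  refine le_trans ?_ (hc P hPc)
  obtain ⟨τ, h2, h3⟩ : ∃ τ : ℝ, (∀ a ∈ P, τ ≤ f a) ∧ ∀ b, b ∉ P → f b ≤ τ := by
    rcases P.eq_empty_or_nonempty with rfl | hne
    · rcases isEmpty_or_nonempty ι with h | h
      · exact ⟨0, by simp, fun b => (h.false b).elim⟩
      · obtain ⟨m, -, hm⟩ := Finset.exists_max_image Finset.univ f Finset.univ_nonempty
        exact ⟨f m, by simp, fun b _ => hm b (Finset.mem_univ _)⟩
    · obtain ⟨m, hmP, hm⟩ := Finset.exists_min_image P f hne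
      exact ⟨f m, hm, fun b hb => hPt m hmP b (Finset.mem_univ _) hb⟩
  have e1 : ∑ i, f i * w i - ∑ i ∈ P, f i = ∑ i, (f i * w i - if i ∈ P then f i else 0) := by
    rw [Finset.sum_sub_distrib, Finset.sum_ite_mem, Finset.univ_inter]
  have e2 : ∑ i, (f i * w i - if i ∈ P then f i else 0) ≤
      ∑ i, (τ * w i - if i ∈ P then τ else 0) := by
    refine Finset.sum_le_sum fun i _ => ?_
    by_cases hi : i ∈ P
    · simp only [hi, if_true]
      nlinarith [h2 i hi, h1 i]
    · simp only [hi, if_false, sub_zero]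
      exact mul_le_mul_of_nonneg_right (h3 i hi) (h0 i)
  have e3 : ∑ i, (τ * w i - if i ∈ P then τ else 0) = 0 := by
    rw [Finset.sum_sub_distrib, Finset.sum_ite_mem, Finset.univ_inter, ← Finset.mul_sum, hw,
      Finset.sum_const, hPc]
    simp only [nsmul_eq_mul]
    ring
  linarith

variable {n : ℕ}

theorem inn (x y : EuclideanSpace ℝ (Fin n)) : inner ℝ x y = ∑ i, x i * y i := by
  rw [PiLp.inner_apply]
  refine Finset.sum_congr rfl fun i _ => ?_
  simp [mul_comm]

/-- the quadratic form in terms of the eigenvectors -/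
theorem quad_eig {M : Matrix (Fin n) (Fin n) ℝ} (hM : M.IsHermitian) (x : Fin n → ℝ) :
    ∑ i, x i * (M *ᵥ x) i =
      ∑ j, hM.eigenvalues j * (∑ i, hM.eigenvectorBasis j i * x i) ^ 2 := by
  set w := hM.eigenvectorBasis with hw
  have eig : ∀ j i, ∑ l, M i l * w j l = hM.eigenvalues j * w j i := by
    intro j i
    have := congrFun (hM.mulVec_eigenvectorBasis j) i
    simpa [Matrix.mulVec, dotProduct] using this
  have sym : ∀ i j, M i j = M j i := by
    intro i j
    have := hM.apply i j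
    simpa using this.symm
  let X : EuclideanSpace ℝ (Fin n) := WithLp.toLp 2 x
  let AX : EuclideanSpace ℝ (Fin n) := WithLp.toLp 2 (M *ᵥ x)
  have h1 : ∑ i, x i * (M *ᵥ x) i = inner ℝ X AX := by rw [inn]
  rw [h1, ← w.sum_inner_mul_inner]
  refine Finset.sum_congr rfl fun j _ => ?_
  have h3 : inner ℝ (w j) X = ∑ i, w j i * x i := by rw [inn]
  have h2 : inner ℝ (w j) AX = hM.eigenvalues j * inner ℝ (w j) X := by
    rw [inn, inn, Finset.mul_sum]
    change ∑ i, w j i * ∑ l, M i l * x l = ∑ i, hM.eigenvalues j * (w j i * x i)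
    have e1 : ∀ i, w j i * ∑ l, M i l * x l = ∑ l, w j i * (M i l * x l) :=
      fun i => Finset.mul_sum _ _ _
    rw [Finset.sum_congr rfl fun i _ => e1 i, Finset.sum_comm]
    refine Finset.sum_congr rfl fun l _ => ?_
    rw [← mul_assoc, ← eig j l, Finset.sum_mul]
    refine Finset.sum_congr rfl fun i _ => ?_
    rw [sym i l]; ring
  rw [h2, real_inner_comm, h3]
  ring

/-- orthonormal families of vectors with real coordinates -/
def ON {κ : Type*} [DecidableEq κ] (s : Finset κ) (v : κ → Fin n → ℝ) : Prop :=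
  ∀ a ∈ s, ∀ b ∈ s, ∑ i, v a i * v b i = if a = b then 1 else 0

theorem ON.bessel {κ : Type*} [DecidableEq κ] {s : Finset κ} {v : κ → Fin n → ℝ} (h : ON s v)
    (x : Fin n → ℝ) : ∑ a ∈ s, (∑ i, v a i * x i) ^ 2 ≤ ∑ i, x i ^ 2 := by
  have h1 : 0 ≤ ∑ i, (x i - ∑ a ∈ s, (∑ l, v a l * x l) * v a i) ^ 2 :=
    Finset.sum_nonneg fun i _ => sq_nonneg _
  have h2 : ∑ i, (x i - ∑ a ∈ s, (∑ l, v a l * x l) * v a i) ^ 2 =
      ∑ i, x i ^ 2 - ∑ a ∈ s, (∑ i, v a i * x i) ^ 2 := by
    have e1 : ∀ i, (x i - ∑ a ∈ s, (∑ l, v a l * x l) * v a i) ^ 2 = x i ^ 2 -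
        2 * ∑ a ∈ s, (∑ l, v a l * x l) * (v a i * x i) +
        ∑ a ∈ s, ∑ b ∈ s, (∑ l, v a l * x l) * (∑ l, v b l * x l) * (v a i * v b i) := by
      intro i
      have e2 : ∑ a ∈ s, (∑ l, v a l * x l) * (v a i * x i) =
          (∑ a ∈ s, (∑ l, v a l * x l) * v a i) * x i := by
        rw [Finset.sum_mul]
        exact Finset.sum_congr rfl fun a _ => by ring
      have e3 : ∑ a ∈ s, ∑ b ∈ s, (∑ l, v a l * x l) * (∑ l, v b l * x l) * (v a i * v b i) =
          (∑ a ∈ s, (∑ l, v a l * x l) * v a i) * (∑ a ∈ s, (∑ l, v a l * x l) * v a i) := by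
        rw [Finset.sum_mul_sum]
        exact Finset.sum_congr rfl fun a _ => Finset.sum_congr rfl fun b _ => by ring
      rw [e2, e3]
      ring
    rw [Finset.sum_congr rfl fun i _ => e1 i, Finset.sum_add_distrib, Finset.sum_sub_distrib,
      ← Finset.mul_sum, Finset.sum_comm (s := Finset.univ) (t := s)]
    have e4 : ∑ a ∈ s, ∑ i, (∑ l, v a l * x l) * (v a i * x i) =
        ∑ a ∈ s, (∑ i, v a i * x i) ^ 2 := by
      refine Finset.sum_congr rfl fun a _ => ?_
      rw [← Finset.mul_sum]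
      ring
    have e5 : ∑ i, ∑ a ∈ s, ∑ b ∈ s,
        (∑ l, v a l * x l) * (∑ l, v b l * x l) * (v a i * v b i) =
        ∑ a ∈ s, (∑ i, v a i * x i) ^ 2 := by
      rw [Finset.sum_comm]
      refine Finset.sum_congr rfl fun a ha => ?_
      rw [Finset.sum_comm]
      have e6 : ∀ b ∈ s, ∑ i, (∑ l, v a l * x l) * (∑ l, v b l * x l) * (v a i * v b i) =
          if a = b then (∑ l, v a l * x l) ^ 2 else 0 := by
        intro b hb
        rw [← Finset.mul_sum, h a ha b hb]
        by_cases hab : a = b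
        · subst hab
          simp [sq]
        · simp [hab]
      rw [Finset.sum_congr rfl e6, Finset.sum_ite_eq]
      simp [ha]
    rw [e4, e5]
    ring
  linarith

/-- **Ky Fan**: if all sums of `k` eigenvalues are at most `c`, then so are the sums of the values
of the quadratic form at `k` orthonormal vectors. -/
theorem kyfan {M : Matrix (Fin n) (Fin n) ℝ} (hM : M.IsHermitian) {κ : Type*} [DecidableEq κ]
    {s : Finset κ} {v : κ → Fin n → ℝ} (hv : ON s v) (c : ℝ)
    (hc : ∀ t : Finset (Fin n), t.card = s.card → ∑ i ∈ t, hM.eigenvalues i ≤ c) :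
    ∑ a ∈ s, ∑ i, v a i * (M *ᵥ v a) i ≤ c := by
  set u := hM.eigenvectorBasis with hu
  have hnorm : ∀ j, ∑ i, u j i ^ 2 = 1 := by
    intro j
    have h1 : inner ℝ (u j) (u j) = (1 : ℝ) := by
      rw [real_inner_self_eq_norm_sq, u.orthonormal.1 j]
      norm_num
    rw [inn] at h1
    rw [← h1]
    exact Finset.sum_congr rfl fun i _ => by ring
  have hpars : ∀ x : Fin n → ℝ, ∑ j, (∑ i, u j i * x i) ^ 2 = ∑ i, x i ^ 2 := by
    intro x
    let X : EuclideanSpace ℝ (Fin n) := WithLp.toLp 2 x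
    have h1 : inner ℝ X X = ∑ i, x i ^ 2 := by
      rw [inn]
      exact Finset.sum_congr rfl fun i _ => by change x i * x i = _; ring
    rw [← h1, ← u.sum_inner_mul_inner]
    refine Finset.sum_congr rfl fun j _ => ?_
    have h3 : inner ℝ (u j) X = ∑ i, u j i * x i := by rw [inn]
    rw [real_inner_comm, h3]
    ring
  have h1 : ∑ a ∈ s, ∑ i, v a i * (M *ᵥ v a) i =
      ∑ j, hM.eigenvalues j * ∑ a ∈ s, (∑ i, u j i * v a i) ^ 2 := by
    rw [Finset.sum_congr rfl fun a _ => quad_eig hM (v a), Finset.sum_comm]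
    exact Finset.sum_congr rfl fun j _ => (Finset.mul_sum _ _ _).symm
  have hw1 : ∀ j, ∑ a ∈ s, (∑ i, u j i * v a i) ^ 2 ≤ 1 := by
    intro j
    have := hv.bessel (fun i => u j i)
    rw [hnorm] at this
    refine le_trans (le_of_eq ?_) this
    refine Finset.sum_congr rfl fun a _ => ?_
    congr 1
    exact Finset.sum_congr rfl fun i _ => mul_comm _ _
  have hw2 : ∑ j, ∑ a ∈ s, (∑ i, u j i * v a i) ^ 2 = (s.card : ℝ) := by
    rw [Finset.sum_comm, Finset.sum_congr rfl fun a _ => hpars (v a)]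
    have : ∀ a ∈ s, ∑ i, v a i ^ 2 = 1 := by
      intro a ha
      have := hv a ha a ha
      simp only [if_true] at this
      rw [← this]
      exact Finset.sum_congr rfl fun i _ => by ring
    rw [Finset.sum_congr rfl this]
    simp
  have hk : s.card ≤ Fintype.card (Fin n) := by
    have h5 : (s.card : ℝ) ≤ (Fintype.card (Fin n) : ℝ) := by
      rw [← hw2]
      calc ∑ j, ∑ a ∈ s, (∑ i, u j i * v a i) ^ 2 ≤ ∑ _j : Fin n, (1 : ℝ) :=
            Finset.sum_le_sum fun j _ => hw1 j
        _ = _ := by simp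
    exact_mod_cast h5
  rw [h1]
  exact weights_le hM.eigenvalues _ s.card c hk
    (fun j => Finset.sum_nonneg fun a _ => sq_nonneg _) hw1 hw2 hc

/-- **Layer lemma.** -/
theorem layer {ι : Type*} [DecidableEq ι] (E : Finset ι) (c : ι → ℝ) :
    ∀ (m : ℕ) (A : ι → ℝ), (∀ p ∈ E, 0 ≤ A p) → (E.filter fun p => 0 < A p).card ≤ m →
    (∀ t : ℝ, 0 ≤ t → ∑ p ∈ E.filter (fun p => t < A p), c p ≤ 0) → ∑ p ∈ E, A p * c p ≤ 0 := by
  intro m
  induction m with
  | zero =>
    intro A h0 hm _
    rw [Nat.le_zero, Finset.card_eq_zero, Finset.filter_eq_empty_iff] at hm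
    refine le_of_eq (Finset.sum_eq_zero fun p hp => ?_)
    rw [le_antisymm (not_lt.1 (hm hp)) (h0 p hp), zero_mul]
  | succ m ih =>
    intro A h0 hm h
    rcases (E.filter fun p => 0 < A p).eq_empty_or_nonempty with he | hne
    · exact ih A h0 (by rw [he]; simp) h
    obtain ⟨q, hq, hmin⟩ := Finset.exists_min_image _ A hne
    rw [Finset.mem_filter] at hq
    have hmin' : ∀ p ∈ E, 0 < A p → A q ≤ A p := fun p hp h1 =>
      hmin p (Finset.mem_filter.2 ⟨hp, h1⟩)
    have h2 := ih (fun p => if 0 < A p then A p - A q else 0) ?_ ?_ ?_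
    · have h3 := h 0 le_rfl
      have h4 : ∑ p ∈ E, A p * c p = ∑ p ∈ E, (if 0 < A p then A p - A q else 0) * c p +
          A q * ∑ p ∈ E.filter (fun p => 0 < A p), c p := by
        rw [Finset.mul_sum, Finset.sum_filter, ← Finset.sum_add_distrib]
        refine Finset.sum_congr rfl fun p hp => ?_
        by_cases h5 : 0 < A p
        · simp only [h5, if_true]
          ring
        · simp only [h5, if_false]
          rw [le_antisymm (not_lt.1 h5) (h0 p hp)]
          ring
      rw [h4]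
      nlinarith [mul_nonneg hq.2.le (neg_nonneg.2 h3)]
    · intro p hp
      split_ifs with h5
      · linarith [hmin' p hp h5]
      · exact le_rfl
    · refine Nat.lt_succ_iff.1 (lt_of_lt_of_le (Finset.card_lt_card ?_) hm)
      refine ⟨fun p hp => ?_, fun hsub => ?_⟩
      · rw [Finset.mem_filter] at hp ⊢
        refine ⟨hp.1, ?_⟩
        by_contra h5
        simp [h5] at hp
      · have := hsub (Finset.mem_filter.2 hq)
        rw [Finset.mem_filter] at this
        simp at this
    · intro t ht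
      refine le_trans (le_of_eq ?_) (h (t + A q) (by linarith [hq.2]))
      refine Finset.sum_congr (Finset.filter_congr fun p hp => ?_) fun _ _ => rfl
      by_cases h5 : 0 < A p
      · simp only [h5, if_true]
        constructor <;> intro h6 <;> linarith
      · simp only [h5, if_false]
        constructor <;> intro h6
        · linarith
        · linarith [hq.2, not_lt.1 h5]

end Pool.Agent.K3h87.WB
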