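import Pool.Agent.K3h87.WB.KyFan

/-!
# Weighted graphs and their level graphs

For MP_4d2320_co (weighted Brouwer inequalities), helper87.
-/

set_option autoImplicit false

open Finset Matrix

namespace Pool.Agent.K3h87.WB

variable {n : ℕ}

/-- the pairs `i < j` -/
def E (n : ℕ) : Finset (Fin n × Fin n) := univ.filter fun p => p.1 < p.2

theorem mem_E {p : Fin n × Fin n} : p ∈ E n ↔ p.1 < p.2 := by simp [E]

theorem sum_E (F : Fin n → Fin n → ℝ) :
    ∑ i, ∑ j, (if i < j then F i j else 0) = ∑ p ∈ E n, F p.1 p.2 := by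
  unfold E
  rw [Finset.sum_filter, Fintype.sum_prod_type]

theorem sum_pairs (F : Fin n → Fin n → ℝ) (hs : ∀ i j, F i j = F j i) (h0 : ∀ i, F i i = 0) :
    ∑ i, ∑ j, F i j = 2 * ∑ p ∈ E n, F p.1 p.2 := by
  have h1 : ∑ i, ∑ j, F i j = ∑ i, ∑ j, (if i < j then F i j else 0) +
      ∑ i, ∑ j, (if j < i then F i j else 0) := by
    rw [← Finset.sum_add_distrib]
    refine Finset.sum_congr rfl fun i _ => ?_
    rw [← Finset.sum_add_distrib]
    refine Finset.sum_congr rfl fun j _ => ?_
    rcases lt_trichotomy i j with h | h | h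
    · simp [h, not_lt.2 h.le]
    · subst h
      simp [h0]
    · simp [h, not_lt.2 h.le]
  have h2 : ∑ i, ∑ j, (if j < i then F i j else 0) = ∑ i, ∑ j, (if i < j then F i j else 0) := by
    rw [Finset.sum_comm]
    refine Finset.sum_congr rfl fun i _ => Finset.sum_congr rfl fun j _ => ?_
    rw [hs]
  rw [h1, h2, sum_E]
  ring

theorem card_edges (G : SimpleGraph (Fin n)) [DecidableRel G.Adj] :
    G.edgeFinset.card = ((E n).filter fun p => G.Adj p.1 p.2).card := by
  have h1 := G.two_mul_card_edgeFinset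
  have h2 : ((univ.filter fun (x : Fin n × Fin n) => G.Adj x.1 x.2).card : ℝ) =
      2 * (((E n).filter fun p => G.Adj p.1 p.2).card : ℝ) := by
    have h3 := sum_pairs (fun i j => if G.Adj i j then (1 : ℝ) else 0)
      (fun i j => by simp [G.adj_comm]) (fun i => by simp)
    rw [← Finset.sum_boole, ← Finset.sum_boole]
    rw [Fintype.sum_prod_type]
    exact h3
  have h4 : (2 * G.edgeFinset.card : ℝ) = ((univ.filter fun (x : Fin n × Fin n) => G.Adj x.1 x.2).card : ℝ) := by
    exact_mod_cast h1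
  rw [h2] at h4
  have h5 : (G.edgeFinset.card : ℝ) = (((E n).filter fun p => G.Adj p.1 p.2).card : ℝ) := by
    linarith
  exact_mod_cast h5

theorem card_E : (E n).card = n.choose 2 := by
  classical
  have h1 := card_edges (⊤ : SimpleGraph (Fin n))
  rw [SimpleGraph.card_edgeFinset_top_eq_card_choose_two, Fintype.card_fin] at h1
  rw [h1]
  congr 1
  ext p
  simp only [Finset.mem_filter, mem_E, SimpleGraph.top_adj]
  exact ⟨fun h => ⟨h, h.ne⟩, fun h => h.1⟩

/-- the Laplacian of a weight matrix -/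
def lap (A : Matrix (Fin n) (Fin n) ℝ) : Matrix (Fin n) (Fin n) ℝ :=
  Matrix.diagonal (fun i => ∑ j, A i j) - A

theorem lap_mulVec (A : Matrix (Fin n) (Fin n) ℝ) (x : Fin n → ℝ) (i : Fin n) :
    (lap A *ᵥ x) i = ∑ j, A i j * (x i - x j) := by
  unfold lap
  rw [Matrix.sub_mulVec, Pi.sub_apply, Matrix.mulVec_diagonal, Finset.sum_mul]
  simp only [Matrix.mulVec, dotProduct]
  rw [← Finset.sum_sub_distrib]
  exact Finset.sum_congr rfl fun j _ => by ring

theorem quad_lap (A : Matrix (Fin n) (Fin n) ℝ) (hA : A.IsSymm) (x : Fin n → ℝ) :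
    ∑ i, x i * (lap A *ᵥ x) i = ∑ p ∈ E n, A p.1 p.2 * (x p.1 - x p.2) ^ 2 := by
  have hs : ∀ i j, A i j = A j i := fun i j => (hA.apply i j).symm
  have h1 : ∑ i, x i * (lap A *ᵥ x) i = ∑ i, ∑ j, A i j * (x i * (x i - x j)) := by
    refine Finset.sum_congr rfl fun i _ => ?_
    rw [lap_mulVec, Finset.mul_sum]
    exact Finset.sum_congr rfl fun j _ => by ring
  have h2 : ∑ i, ∑ j, A i j * (x i * (x i - x j)) = ∑ i, ∑ j, A i j * (x j * (x j - x i)) := by
    rw [Finset.sum_comm]
    refine Finset.sum_congr rfl fun i _ => Finset.sum_congr rfl fun j _ => ?_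
    rw [hs]
  have h3 := sum_pairs (fun i j => A i j * (x i - x j) ^ 2)
    (fun i j => by rw [hs i j]; ring) (fun i => by simp)
  have h4 : ∑ i, ∑ j, A i j * (x i - x j) ^ 2 =
      ∑ i, ∑ j, A i j * (x i * (x i - x j)) + ∑ i, ∑ j, A i j * (x j * (x j - x i)) := by
    rw [← Finset.sum_add_distrib]
    refine Finset.sum_congr rfl fun i _ => ?_
    rw [← Finset.sum_add_distrib]
    exact Finset.sum_congr rfl fun j _ => by ring
  rw [h1]
  rw [h4, ← h2] at h3
  linarith

/-- the family of the eigenvectors -/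
theorem on_eig {M : Matrix (Fin n) (Fin n) ℝ} (hM : M.IsHermitian) (s : Finset (Fin n)) :
    ON s fun j i => hM.eigenvectorBasis j i := by
  intro a _ b _
  have h1 := (orthonormal_iff_ite.1 hM.eigenvectorBasis.orthonormal) a b
  rw [inn] at h1
  exact h1

theorem mulVec_eig {M : Matrix (Fin n) (Fin n) ℝ} (hM : M.IsHermitian) (j i : Fin n) :
    (M *ᵥ fun i => hM.eigenvectorBasis j i) i = hM.eigenvalues j * hM.eigenvectorBasis j i := by
  have := congrFun (hM.mulVec_eigenvectorBasis j) i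
  simpa [Matrix.mulVec, dotProduct] using this

theorem sum_eig {M : Matrix (Fin n) (Fin n) ℝ} (hM : M.IsHermitian) (s : Finset (Fin n)) :
    ∑ j ∈ s, hM.eigenvalues j =
      ∑ j ∈ s, ∑ i, hM.eigenvectorBasis j i * (M *ᵥ fun i => hM.eigenvectorBasis j i) i := by
  refine Finset.sum_congr rfl fun j hj => ?_
  have h1 := on_eig hM s j hj j hj
  simp only [if_true] at h1
  have h2 : ∑ i, hM.eigenvectorBasis j i * (M *ᵥ fun i => hM.eigenvectorBasis j i) i =
      hM.eigenvalues j * ∑ i, hM.eigenvectorBasis j i * hM.eigenvectorBasis j i := by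
    rw [Finset.mul_sum]
    refine Finset.sum_congr rfl fun i _ => ?_
    rw [mulVec_eig]
    ring
  rw [h2, h1, mul_one]

/-- the level graphs -/
def level (A : Matrix (Fin n) (Fin n) ℝ) (t : ℝ) : SimpleGraph (Fin n) :=
  SimpleGraph.fromRel fun i j => t < A i j

theorem level_adj {A : Matrix (Fin n) (Fin n) ℝ} (hA : A.IsSymm) {t : ℝ} {i j : Fin n} :
    (level A t).Adj i j ↔ i ≠ j ∧ t < A i j := by
  unfold level
  rw [SimpleGraph.fromRel_adj, hA.apply i j, or_self]

theorem lap_adj (G : SimpleGraph (Fin n)) [DecidableRel G.Adj] :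
    lap (G.adjMatrix ℝ) = G.lapMatrix ℝ := by
  unfold lap SimpleGraph.lapMatrix SimpleGraph.degMatrix
  congr 2
  ext i
  rw [SimpleGraph.degree_eq_sum_if_adj]
  exact Finset.sum_congr rfl fun j _ => by rw [SimpleGraph.adjMatrix_apply]

/-- every sum of `k` Laplacian eigenvalues of the graph is at most the number of the edges plus `c` -/
noncomputable def EdgeBound (G : SimpleGraph (Fin n)) (k c : ℕ) : Prop := by
  classical exact ∀ s : Finset (Fin n), s.card = k →
    ∑ i ∈ s, (G.isHermitian_lapMatrix (R := ℝ)).eigenvalues i ≤ G.edgeFinset.card + c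

theorem edgeBound_def {G : SimpleGraph (Fin n)} [inst : DecidableRel G.Adj] {k c : ℕ} :
    EdgeBound G k c ↔ ∀ s : Finset (Fin n), s.card = k →
      ∑ i ∈ s, (G.isHermitian_lapMatrix (R := ℝ)).eigenvalues i ≤ G.edgeFinset.card + c := by
  have h : inst = fun a b => Classical.propDecidable (G.Adj a b) := Subsingleton.elim _ _
  subst h
  exact Iff.rfl

theorem edgeBound_quad {G : SimpleGraph (Fin n)} [DecidableRel G.Adj] {k c : ℕ}
    (h : EdgeBound G k c) {κ : Type*} [DecidableEq κ] {s : Finset κ} (hs : s.card = k)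
    {v : κ → Fin n → ℝ} (hv : ON s v) :
    ∑ p ∈ (E n).filter (fun p => G.Adj p.1 p.2), ∑ a ∈ s, (v a p.1 - v a p.2) ^ 2 ≤
      ((E n).filter fun p => G.Adj p.1 p.2).card + c := by
  have h0 : ∀ t : Finset (Fin n), t.card = s.card →
      ∑ i ∈ t, (G.isHermitian_lapMatrix (R := ℝ)).eigenvalues i ≤ G.edgeFinset.card + c := by
    intro t ht
    rw [hs] at ht
    exact edgeBound_def.1 h t ht
  have h1 := kyfan (G.isHermitian_lapMatrix (R := ℝ)) hv (G.edgeFinset.card + c) h0
  have h2 : ∑ a ∈ s, ∑ i, v a i * (G.lapMatrix ℝ *ᵥ v a) i =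
      ∑ p ∈ (E n).filter (fun p => G.Adj p.1 p.2), ∑ a ∈ s, (v a p.1 - v a p.2) ^ 2 := by
    rw [Finset.sum_comm (s := (E n).filter (fun p => G.Adj p.1 p.2))]
    refine Finset.sum_congr rfl fun a _ => ?_
    rw [← lap_adj, quad_lap _ G.isSymm_adjMatrix, Finset.sum_filter]
    refine Finset.sum_congr rfl fun p _ => ?_
    rw [SimpleGraph.adjMatrix_apply]
    split_ifs <;> simp
  rw [h2, card_edges] at h1
  exact h1

theorem pair_le {κ : Type*} [DecidableEq κ] {s : Finset κ} {v : κ → Fin n → ℝ} (hv : ON s v)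
    {p : Fin n × Fin n} (hp : p ∈ E n) : ∑ a ∈ s, (v a p.1 - v a p.2) ^ 2 ≤ 2 := by
  have hne : p.1 ≠ p.2 := (mem_E.1 hp).ne
  have h1 := hv.bessel (fun i => (if i = p.1 then 1 else 0) - if i = p.2 then 1 else 0)
  have h2 : ∀ a, ∑ i, v a i * ((if i = p.1 then 1 else 0) - if i = p.2 then 1 else 0) =
      v a p.1 - v a p.2 := by
    intro a
    simp [mul_sub, Finset.sum_sub_distrib]
  have h3 : ∑ i : Fin n, ((if i = p.1 then (1 : ℝ) else 0) - if i = p.2 then 1 else 0) ^ 2 = 2 := by
    have e : ∀ i : Fin n, ((if i = p.1 then (1 : ℝ) else 0) - if i = p.2 then 1 else 0) ^ 2 =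
        (if i = p.1 then 1 else 0) + if i = p.2 then 1 else 0 := by
      intro i
      by_cases h4 : i = p.1
      · subst h4
        simp [hne]
      · by_cases h5 : i = p.2
        · subst h5
          simp [h4]
        · simp [h4, h5]
    rw [Finset.sum_congr rfl fun i _ => e i, Finset.sum_add_distrib]
    simp
    norm_num
  rw [h3] at h1
  simpa only [h2] using h1

/-- **The reduction to the level graphs.** -/
theorem main {A : Matrix (Fin n) (Fin n) ℝ} (hA : A.IsSymm) (h0 : ∀ i j, 0 ≤ A i j) {k c : ℕ}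
    (hc : c ≤ n.choose 2) (hG : ∀ t : ℝ, 0 ≤ t → EdgeBound (level A t) k c)
    (hL : (lap A).IsHermitian) (s : Finset (Fin n)) (hs : s.card = k) :
    ∃ P : Finset (Fin n × Fin n), P.card = c ∧ (∀ p ∈ P, p.1 < p.2) ∧
      ∑ i ∈ s, hL.eigenvalues i ≤
        (∑ i, ∑ j, if i < j then A i j else 0) + ∑ p ∈ P, A p.1 p.2 := by
  classical
  obtain ⟨P, hPE, hPc, hPt⟩ := exists_top (E n) (fun p => A p.1 p.2) c (by rw [card_E]; exact hc)
  refine ⟨P, hPc, fun p hp => mem_E.1 (hPE hp), ?_⟩
  set v : Fin n → Fin n → ℝ := fun j i => hL.eigenvectorBasis j i with hv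
  have hon : ON s v := on_eig hL s
  set g : Fin n × Fin n → ℝ := fun p => ∑ a ∈ s, (v a p.1 - v a p.2) ^ 2 with hg
  have h1 : ∑ i ∈ s, hL.eigenvalues i = ∑ p ∈ E n, A p.1 p.2 * g p := by
    rw [sum_eig]
    have : ∀ j ∈ s, ∑ i, hL.eigenvectorBasis j i * (lap A *ᵥ fun i => hL.eigenvectorBasis j i) i =
        ∑ p ∈ E n, A p.1 p.2 * (v j p.1 - v j p.2) ^ 2 := fun j _ => quad_lap A hA _
    rw [Finset.sum_congr rfl this, Finset.sum_comm]
    exact Finset.sum_congr rfl fun p _ => (Finset.mul_sum _ _ _).symm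
  have h2 : ∑ p ∈ E n, A p.1 p.2 * (g p - 1 - if p ∈ P then 1 else 0) ≤ 0 := by
    refine layer (E n) _ _ (fun p => A p.1 p.2) (fun p _ => h0 _ _) le_rfl ?_
    intro t ht
    have h3 : (E n).filter (fun p => t < A p.1 p.2) =
        (E n).filter fun p => (level A t).Adj p.1 p.2 := by
      refine Finset.filter_congr fun p hp => ?_
      rw [level_adj hA]
      exact ⟨fun h => ⟨(mem_E.1 hp).ne, h⟩, fun h => h.2⟩
    have h4 : ∑ p ∈ (E n).filter (fun p => t < A p.1 p.2), (g p - 1 - if p ∈ P then 1 else 0) =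
        ∑ p ∈ (E n).filter (fun p => t < A p.1 p.2), g p -
        ((E n).filter (fun p => t < A p.1 p.2)).card -
        (((E n).filter (fun p => t < A p.1 p.2)).filter (fun p => p ∈ P)).card := by
      rw [Finset.sum_sub_distrib, Finset.sum_sub_distrib, Finset.sum_boole]
      simp
    rw [h4]
    by_cases h5 : P ⊆ (E n).filter (fun p => t < A p.1 p.2)
    · have h6 : ((E n).filter (fun p => t < A p.1 p.2)).filter (fun p => p ∈ P) = P := by
        rw [Finset.filter_mem_eq_inter]
        exact Finset.inter_eq_right.2 h5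
      rw [h6, hPc]
      have h7 := edgeBound_quad (hG t ht) hs hon
      rw [← h3] at h7
      linarith
    · have h6 : ((E n).filter (fun p => t < A p.1 p.2)).filter (fun p => p ∈ P) =
          (E n).filter (fun p => t < A p.1 p.2) := by
        refine Finset.filter_true_of_mem fun q hq => ?_
        by_contra hqP
        rw [Finset.not_subset] at h5
        obtain ⟨p, hp, hp2⟩ := h5
        rw [Finset.mem_filter] at hq hp2
        push Not at hp2
        have := hPt p hp q hq.1 hqP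
        linarith [hp2 (hPE hp), hq.2]
      rw [h6]
      have h7 : ∑ p ∈ (E n).filter (fun p => t < A p.1 p.2), g p ≤
          ∑ _p ∈ (E n).filter (fun p => t < A p.1 p.2), (2 : ℝ) :=
        Finset.sum_le_sum fun p hp => pair_le hon (Finset.mem_filter.1 hp).1
      rw [Finset.sum_const, nsmul_eq_mul] at h7
      linarith
  have h3 : ∑ p ∈ E n, A p.1 p.2 * (g p - 1 - if p ∈ P then 1 else 0) =
      ∑ p ∈ E n, A p.1 p.2 * g p - ∑ p ∈ E n, A p.1 p.2 - ∑ p ∈ P, A p.1 p.2 := by
    have e1 : ∑ p ∈ P, A p.1 p.2 = ∑ p ∈ E n, if p ∈ P then A p.1 p.2 else 0 := by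
      rw [Finset.sum_ite_mem, Finset.inter_eq_right.2 hPE]
    rw [e1, ← Finset.sum_sub_distrib, ← Finset.sum_sub_distrib]
    refine Finset.sum_congr rfl fun p _ => ?_
    split_ifs <;> ring
  rw [h1, sum_E (fun i j => A i j)]
  linarith

end Pool.Agent.K3h87.WB
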