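import Pool.Agent.K3h87.WB.Main

/-!
# Brouwer's inequality for `k = 1`, `n - 2`, `n - 1`

For MP_4d2320_co (weighted Brouwer inequalities), helper87.
-/

set_option autoImplicit false

open Finset Matrix

namespace Pool.Agent.K3h87.WB

variable {n : ℕ}

theorem degree_add_le (G : SimpleGraph (Fin n)) [DecidableRel G.Adj] {i j : Fin n}
    (h : i ≠ j) : G.degree i + G.degree j ≤ G.edgeFinset.card + 1 := by
  rw [← G.card_incidenceFinset_eq_degree i, ← G.card_incidenceFinset_eq_degree j,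
    ← Finset.card_union_add_card_inter]
  refine Nat.add_le_add (Finset.card_le_card (Finset.union_subset (G.incidenceFinset_subset i)
    (G.incidenceFinset_subset j))) ?_
  have h1 : G.incidenceFinset i ∩ G.incidenceFinset j ⊆ {s(i, j)} := by
    intro e he
    rw [Finset.mem_inter, SimpleGraph.mem_incidenceFinset, SimpleGraph.mem_incidenceFinset] at he
    have := G.incidenceSet_inter_incidenceSet_subset h ⟨he.1, he.2⟩
    simpa using this
  exact (Finset.card_le_card h1).trans (by simp)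

theorem norm_eig {M : Matrix (Fin n) (Fin n) ℝ} (hM : M.IsHermitian) (j : Fin n) :
    ∑ i, hM.eigenvectorBasis j i * hM.eigenvectorBasis j i = 1 := by
  have := on_eig hM {j} j (by simp) j (by simp)
  simpa using this

theorem nonneg_eig (G : SimpleGraph (Fin n)) [DecidableRel G.Adj] (j : Fin n) :
    0 ≤ (G.isHermitian_lapMatrix (R := ℝ)).eigenvalues j :=
  (G.posSemidef_lapMatrix ℝ).eigenvalues_nonneg j

theorem edgeBound_one (G : SimpleGraph (Fin n)) : EdgeBound G 1 1 := by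
  classical
  unfold EdgeBound
  intro s hs
  obtain ⟨j, rfl⟩ := Finset.card_eq_one.1 hs
  rw [Finset.sum_singleton]
  set hM := G.isHermitian_lapMatrix (R := ℝ) with hMdef
  set f : Fin n → ℝ := fun i => hM.eigenvectorBasis j i with hf
  set lam := hM.eigenvalues j with hlam
  have hlam0 : 0 ≤ lam := nonneg_eig G j
  have hf1 : ∑ i, f i * f i = 1 := norm_eig hM j
  have hL : ∀ i, (lap (G.adjMatrix ℝ) *ᵥ f) i = lam * f i := by
    intro i
    rw [lap_adj]
    exact mulVec_eig hM j i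
  set m : ℝ := (G.edgeFinset.card : ℝ) with hm
  have hdeg : ∀ i, ∑ l, G.adjMatrix ℝ i l = G.degree i := by
    intro i
    rw [SimpleGraph.degree_eq_sum_if_adj]
    exact Finset.sum_congr rfl fun l _ => by rw [SimpleGraph.adjMatrix_apply]
  have ha0 : ∀ i l, 0 ≤ G.adjMatrix ℝ i l := by
    intro i l
    rw [SimpleGraph.adjMatrix_apply]
    split_ifs <;> norm_num
  have haa : ∀ i l, G.adjMatrix ℝ i l * G.adjMatrix ℝ i l = G.adjMatrix ℝ i l := by
    intro i l
    rw [SimpleGraph.adjMatrix_apply]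
    split_ifs <;> norm_num
  -- Cauchy-Schwarz
  have h1 : ∀ i, (lam * f i) ^ 2 ≤
      (G.degree i : ℝ) * ∑ l, G.adjMatrix ℝ i l * (f i - f l) ^ 2 := by
    intro i
    rw [← hL i, lap_mulVec, ← hdeg i]
    refine Finset.sum_sq_le_sum_mul_sum_of_sq_le_mul Finset.univ (fun l _ => ha0 i l)
      (fun l _ => mul_nonneg (ha0 i l) (sq_nonneg _)) fun l _ => le_of_eq ?_
    have := haa i l
    calc (G.adjMatrix ℝ i l * (f i - f l)) ^ 2 =
        (G.adjMatrix ℝ i l * G.adjMatrix ℝ i l) * (f i - f l) ^ 2 := by ring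
      _ = (G.adjMatrix ℝ i l * G.adjMatrix ℝ i l) *
          (f i - f l) ^ 2 := rfl
      _ = G.adjMatrix ℝ i l * (G.adjMatrix ℝ i l * (f i - f l) ^ 2) := by ring
  have h2 : lam ^ 2 ≤ ∑ i, ∑ l, (G.degree i : ℝ) * (G.adjMatrix ℝ i l * (f i - f l) ^ 2) := by
    have e1 : lam ^ 2 = ∑ i, (lam * f i) ^ 2 := by
      have : ∑ i, (lam * f i) ^ 2 = lam ^ 2 * ∑ i, f i * f i := by
        rw [Finset.mul_sum]
        exact Finset.sum_congr rfl fun i _ => by ring
      rw [this, hf1, mul_one]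
    rw [e1]
    refine Finset.sum_le_sum fun i _ => ?_
    rw [← Finset.mul_sum]
    exact h1 i
  -- symmetrisation
  have hsym : ∀ i l, G.adjMatrix ℝ i l = G.adjMatrix ℝ l i := fun i l =>
    (G.isSymm_adjMatrix.apply i l).symm
  have h3 : ∑ i, ∑ l, (G.degree i : ℝ) * (G.adjMatrix ℝ i l * (f i - f l) ^ 2) =
      ∑ p ∈ E n, ((G.degree p.1 : ℝ) + G.degree p.2) *
        (G.adjMatrix ℝ p.1 p.2 * (f p.1 - f p.2) ^ 2) := by
    have e1 : ∑ i, ∑ l, (G.degree i : ℝ) * (G.adjMatrix ℝ i l * (f i - f l) ^ 2) =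
        ∑ i, ∑ l, (G.degree l : ℝ) * (G.adjMatrix ℝ i l * (f i - f l) ^ 2) := by
      rw [Finset.sum_comm]
      refine Finset.sum_congr rfl fun i _ => Finset.sum_congr rfl fun l _ => ?_
      rw [hsym i l]
      ring
    have e2 := sum_pairs (fun i l => ((G.degree i : ℝ) + G.degree l) *
      (G.adjMatrix ℝ i l * (f i - f l) ^ 2)) (fun i l => by rw [hsym i l]; ring)
      (fun i => by simp)
    have e3 : ∑ i, ∑ l, ((G.degree i : ℝ) + G.degree l) *
        (G.adjMatrix ℝ i l * (f i - f l) ^ 2) =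
        ∑ i, ∑ l, (G.degree i : ℝ) * (G.adjMatrix ℝ i l * (f i - f l) ^ 2) +
        ∑ i, ∑ l, (G.degree l : ℝ) * (G.adjMatrix ℝ i l * (f i - f l) ^ 2) := by
      rw [← Finset.sum_add_distrib]
      refine Finset.sum_congr rfl fun i _ => ?_
      rw [← Finset.sum_add_distrib]
      exact Finset.sum_congr rfl fun l _ => by ring
    rw [e3, ← e1] at e2
    linarith
  have h4 : ∑ p ∈ E n, ((G.degree p.1 : ℝ) + G.degree p.2) *
      (G.adjMatrix ℝ p.1 p.2 * (f p.1 - f p.2) ^ 2) ≤
      (m + 1) * ∑ p ∈ E n, G.adjMatrix ℝ p.1 p.2 * (f p.1 - f p.2) ^ 2 := by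
    rw [Finset.mul_sum]
    refine Finset.sum_le_sum fun p hp => ?_
    refine mul_le_mul_of_nonneg_right ?_ (mul_nonneg (ha0 _ _) (sq_nonneg _))
    have := degree_add_le G (mem_E.1 hp).ne
    rw [hm]
    exact_mod_cast this
  have h5 : ∑ p ∈ E n, G.adjMatrix ℝ p.1 p.2 * (f p.1 - f p.2) ^ 2 = lam := by
    rw [← quad_lap _ G.isSymm_adjMatrix f]
    have : ∀ i, f i * (lap (G.adjMatrix ℝ) *ᵥ f) i = lam * (f i * f i) := by
      intro i
      rw [hL i]
      ring
    rw [Finset.sum_congr rfl fun i _ => this i, ← Finset.mul_sum, hf1, mul_one]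
  rw [h5] at h4
  have h6 : lam ^ 2 ≤ (m + 1) * lam := by
    rw [h3] at h2
    exact h2.trans h4
  have hm0 : 0 ≤ m := by rw [hm]; positivity
  push_cast
  rcases hlam0.lt_or_eq with h7 | h7
  · nlinarith
  · linarith

theorem sum_all_eig (G : SimpleGraph (Fin n)) [DecidableRel G.Adj] :
    ∑ i, (G.isHermitian_lapMatrix (R := ℝ)).eigenvalues i = 2 * G.edgeFinset.card := by
  have h1 := (G.isHermitian_lapMatrix (R := ℝ)).trace_eq_sum_eigenvalues
  have h2 : (G.lapMatrix ℝ).trace = 2 * G.edgeFinset.card := by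
    unfold SimpleGraph.lapMatrix
    rw [Matrix.trace_sub, SimpleGraph.trace_adjMatrix, sub_zero]
    unfold SimpleGraph.degMatrix
    rw [Matrix.trace_diagonal]
    have := G.sum_degrees_eq_twice_card_edges
    exact_mod_cast this
  rw [h2] at h1
  rw [h1]
  simp

theorem edges_le (G : SimpleGraph (Fin n)) [DecidableRel G.Adj] :
    G.edgeFinset.card ≤ n.choose 2 := by
  have := G.card_edgeFinset_le_card_choose_two
  simpa using this

theorem edgeBound_last (G : SimpleGraph (Fin n)) : EdgeBound G (n - 1) (n.choose 2) := by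
  classical
  unfold EdgeBound
  intro s _
  have h1 := sum_all_eig G
  have h2 : ∑ i ∈ s, (G.isHermitian_lapMatrix (R := ℝ)).eigenvalues i ≤
      ∑ i, (G.isHermitian_lapMatrix (R := ℝ)).eigenvalues i :=
    Finset.sum_le_univ_sum_of_nonneg fun i => nonneg_eig G i
  have h3 : (G.edgeFinset.card : ℝ) ≤ (n.choose 2 : ℕ) := by exact_mod_cast edges_le G
  linarith

/-- the quadratic form of the complement -/
theorem quad_compl (G : SimpleGraph (Fin n)) [DecidableRel G.Adj] (x : Fin n → ℝ)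
    (hx : ∑ i, x i = 0) :
    ∑ p ∈ (E n).filter (fun p => G.Adj p.1 p.2), (x p.1 - x p.2) ^ 2 +
      ∑ p ∈ (E n).filter (fun p => ¬ G.Adj p.1 p.2), (x p.1 - x p.2) ^ 2 = n * ∑ i, x i * x i := by
  rw [Finset.sum_filter_add_sum_filter_not]
  have h1 := sum_pairs (fun i j => (x i - x j) ^ 2) (fun i j => by ring) (fun i => by simp)
  have h2 : ∑ i, ∑ j, (x i - x j) ^ 2 = 2 * (n * ∑ i, x i * x i) := by
    have e1 : ∀ i, ∑ j, (x i - x j) ^ 2 = n * (x i * x i) - 2 * x i * ∑ j, x j + ∑ j, x j * x j := by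
      intro i
      rw [Finset.mul_sum]
      have e2 : (n : ℝ) * (x i * x i) = ∑ _j : Fin n, x i * x i := by simp
      rw [e2, ← Finset.sum_sub_distrib, ← Finset.sum_add_distrib]
      exact Finset.sum_congr rfl fun j _ => by ring
    rw [Finset.sum_congr rfl fun i _ => e1 i, hx, Finset.sum_add_distrib, Finset.sum_sub_distrib,
      ← Finset.mul_sum]
    simp
    ring
  rw [h2] at h1
  linarith

theorem edgeBound_compl (hn : 3 ≤ n) (G : SimpleGraph (Fin n)) :
    EdgeBound G (n - 2) ((n - 1).choose 2) := by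
  classical
  unfold EdgeBound
  intro s hs
  set hM := G.isHermitian_lapMatrix (R := ℝ) with hMdef
  have h1 := sum_all_eig G
  rw [← hMdef, ← Finset.sum_add_sum_compl s] at h1
  have hc : sᶜ.card = 2 := by
    rw [Finset.card_compl, hs, Fintype.card_fin]
    omega
  obtain ⟨a, b, hab, hsc⟩ := Finset.card_eq_two.1 hc
  rw [hsc, Finset.sum_pair hab] at h1
  set la := hM.eigenvalues a with hla
  set lb := hM.eigenvalues b with hlb
  have hla0 : 0 ≤ la := nonneg_eig G a
  have hlb0 : 0 ≤ lb := nonneg_eig G b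
  set f : Fin n → ℝ := fun i => hM.eigenvectorBasis a i with hf
  set g : Fin n → ℝ := fun i => hM.eigenvectorBasis b i with hg
  have hff : ∑ i, f i * f i = 1 := norm_eig hM a
  have hgg : ∑ i, g i * g i = 1 := norm_eig hM b
  have hfg : ∑ i, f i * g i = 0 := by
    have := on_eig hM {a, b} a (by simp) b (by simp)
    simpa [hab] using this
  -- a unit vector with mean zero
  obtain ⟨α, β, hαβ, hzero⟩ : ∃ α β : ℝ, α ^ 2 + β ^ 2 = 1 ∧
      α * ∑ i, f i + β * ∑ i, g i = 0 := by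
    set p := ∑ i, f i with hp
    set q := ∑ i, g i with hq
    by_cases h2 : p ^ 2 + q ^ 2 = 0
    · have hp0 : p = 0 := by nlinarith [sq_nonneg p, sq_nonneg q]
      exact ⟨1, 0, by norm_num, by rw [hp0]; ring⟩
    · have h3 : 0 < p ^ 2 + q ^ 2 := lt_of_le_of_ne (by positivity) (Ne.symm h2)
      have h4 : Real.sqrt (p ^ 2 + q ^ 2) ^ 2 = p ^ 2 + q ^ 2 := Real.sq_sqrt h3.le
      have h5 : Real.sqrt (p ^ 2 + q ^ 2) ≠ 0 := (Real.sqrt_pos.2 h3).ne'
      refine ⟨q / Real.sqrt (p ^ 2 + q ^ 2), -p / Real.sqrt (p ^ 2 + q ^ 2), ?_, ?_⟩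
      · rw [div_pow, div_pow, ← add_div, h4]
        rw [div_eq_one_iff_eq h2]
        ring
      · field_simp
        ring
  set x : Fin n → ℝ := fun i => α * f i + β * g i with hx
  have hx0 : ∑ i, x i = 0 := by
    rw [hx, Finset.sum_add_distrib, ← Finset.mul_sum, ← Finset.mul_sum]
    exact hzero
  have hxx : ∑ i, x i * x i = 1 := by
    have e1 : ∑ i, x i * x i = α ^ 2 * ∑ i, f i * f i + 2 * α * β * ∑ i, f i * g i +
        β ^ 2 * ∑ i, g i * g i := by
      rw [Finset.mul_sum, Finset.mul_sum, Finset.mul_sum, ← Finset.sum_add_distrib,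
        ← Finset.sum_add_distrib]
      exact Finset.sum_congr rfl fun i _ => by simp only [hx]; ring
    rw [e1, hff, hfg, hgg]
    linarith
  have hLx : ∀ i, (lap (G.adjMatrix ℝ) *ᵥ x) i = α * (la * f i) + β * (lb * g i) := by
    intro i
    have e1 : x = α • f + β • g := by
      funext l
      simp [hx]
    rw [lap_adj, e1, Matrix.mulVec_add, Matrix.mulVec_smul, Matrix.mulVec_smul, Pi.add_apply,
      Pi.smul_apply, Pi.smul_apply, smul_eq_mul, smul_eq_mul]
    have e2 := mulVec_eig hM a i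
    have e3 := mulVec_eig hM b i
    change α * (G.lapMatrix ℝ *ᵥ fun i => hM.eigenvectorBasis a i) i +
      β * (G.lapMatrix ℝ *ᵥ fun i => hM.eigenvectorBasis b i) i = _
    rw [e2, e3]
  have hq1 : ∑ i, x i * (lap (G.adjMatrix ℝ) *ᵥ x) i = α ^ 2 * la + β ^ 2 * lb := by
    have e1 : ∑ i, x i * (lap (G.adjMatrix ℝ) *ᵥ x) i = α ^ 2 * la * ∑ i, f i * f i +
        α * β * (la + lb) * ∑ i, f i * g i + β ^ 2 * lb * ∑ i, g i * g i := by
      rw [Finset.mul_sum, Finset.mul_sum, Finset.mul_sum, ← Finset.sum_add_distrib,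
        ← Finset.sum_add_distrib]
      exact Finset.sum_congr rfl fun i _ => by rw [hLx i]; simp only [hx]; ring
    rw [e1, hff, hfg, hgg]
    ring
  have hq2 : ∑ i, x i * (lap (G.adjMatrix ℝ) *ᵥ x) i =
      ∑ p ∈ (E n).filter (fun p => G.Adj p.1 p.2), (x p.1 - x p.2) ^ 2 := by
    rw [quad_lap _ G.isSymm_adjMatrix, Finset.sum_filter]
    refine Finset.sum_congr rfl fun p _ => ?_
    rw [SimpleGraph.adjMatrix_apply]
    split_ifs <;> simp
  have hq3 := quad_compl G x hx0
  rw [hxx] at hq3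
  have hon : ON ({0} : Finset ℕ) fun _ => x := by
    intro u hu w hw
    rw [Finset.mem_singleton] at hu hw
    rw [hu, hw, if_pos rfl]
    exact hxx
  have hq4 := edgeBound_quad (edgeBound_one Gᶜ) (s := ({0} : Finset ℕ)) (by simp) hon
  have hE : (E n).filter (fun p => Gᶜ.Adj p.1 p.2) = (E n).filter fun p => ¬ G.Adj p.1 p.2 := by
    refine Finset.filter_congr fun p hp => ?_
    rw [SimpleGraph.compl_adj]
    exact ⟨fun h => h.2, fun h => ⟨(mem_E.1 hp).ne, h⟩⟩
  simp only [Finset.sum_singleton] at hq4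
  rw [hE] at hq4
  have hcard : ((E n).filter fun p => G.Adj p.1 p.2).card +
      ((E n).filter fun p => ¬ G.Adj p.1 p.2).card = n.choose 2 := by
    rw [Finset.card_filter_add_card_filter_not, card_E]
  have hcard' : (G.edgeFinset.card : ℝ) + (((E n).filter fun p => ¬ G.Adj p.1 p.2).card : ℝ) =
      ((n.choose 2 : ℕ) : ℝ) := by
    rw [card_edges]
    exact_mod_cast hcard
  have hch : ((n.choose 2 : ℕ) : ℝ) = (((n - 1).choose 2 : ℕ) : ℝ) + ((n : ℝ) - 1) := by
    obtain ⟨r, rfl⟩ := Nat.exists_eq_add_of_le (show 1 ≤ n by omega)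
    rw [show 1 + r - 1 = r by omega, add_comm 1 r, Nat.choose_succ_succ' r 1]
    push_cast
    simp
    ring
  have hmix : α ^ 2 * la + β ^ 2 * lb ≤ la + lb := by
    nlinarith [sq_nonneg α, sq_nonneg β, mul_nonneg (sq_nonneg α) hlb0,
      mul_nonneg (sq_nonneg β) hla0]
  push_cast at hq4
  rw [hq1] at hq2
  linarith

end Pool.Agent.K3h87.WB
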