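import Pool.Agent.K3h87.WB.Helmert

/-!
# Brouwer's inequality for threshold graphs

For MP_4d2320_co (weighted Brouwer inequalities), helper87.
-/

set_option autoImplicit false

open Finset Matrix

namespace Pool.Agent.K3h87.WB

variable {n : ℕ}

/-- threshold graphs: `i` and `j` are adjacent if and only if `w i + w j` is larger than `τ` -/
def IsThreshold (G : SimpleGraph (Fin n)) : Prop :=
  ∃ (w : Fin n → ℝ) (τ : ℝ), ∀ i j, i ≠ j → (G.Adj i j ↔ τ < w i + w j)

/-- extension of a function by zero -/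
def ext0 (x : Fin n → ℝ) (i : ℕ) : ℝ := if h : i < n then x ⟨i, h⟩ else 0

theorem ext0_val (x : Fin n → ℝ) (i : Fin n) : ext0 x i = x i := by
  unfold ext0
  simp

theorem star_hel' (x : ℕ → ℝ) (j : ℕ) :
    ∑ i ∈ range j, (x i - x j) ^ 2 = (j + 1) * hel x j + ∑ l ∈ Ico 1 j, hel x l := by
  rcases Nat.eq_zero_or_pos j with rfl | hj
  · simp [hel]
  · exact star_hel x j hj

/-- the quadratic form of a threshold graph in Helmert coordinates -/
theorem quad_mu (n : ℕ) (b : ℕ → Prop) [DecidablePred b] (x : ℕ → ℝ) :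
    ∑ j ∈ (range n).filter (fun j => b j), ∑ i ∈ range j, (x i - x j) ^ 2 =
      ∑ l ∈ Ico 1 n, mu n b l * hel x l := by
  have h0 : hel x 0 = 0 := by simp [hel]
  have hI : ∀ g : ℕ → ℝ, g 0 = 0 → ∑ l ∈ Ico 1 n, g l = ∑ l ∈ range n, g l := by
    intro g hg
    rcases Nat.eq_zero_or_pos n with rfl | hn
    · simp
    · rw [Finset.range_eq_Ico, Finset.sum_eq_sum_Ico_succ_bot hn, hg, zero_add]
  rw [hI (fun l => mu n b l * hel x l) (by rw [h0, mul_zero])]
  have e1 : ∀ l ∈ range n, mu n b l * hel x l = (if b l then ((l : ℝ) + 1) * hel x l else 0) +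
      ∑ j ∈ (range n).filter (fun j => b j), if l < j then hel x l else 0 := by
    intro l _
    unfold mu
    rw [add_mul]
    congr 1
    · split_ifs <;> simp
    · rw [← Finset.sum_filter, Finset.filter_filter, Finset.sum_const, nsmul_eq_mul]
  rw [Finset.sum_congr rfl e1, Finset.sum_add_distrib, Finset.sum_comm (s := range n),
    ← Finset.sum_filter, ← Finset.sum_add_distrib]
  refine Finset.sum_congr rfl fun j hj => ?_
  rw [star_hel']
  congr 1
  rw [← hI (fun l => if l < j then hel x l else 0) (by simp [h0]), ← Finset.sum_filter]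
  refine Finset.sum_congr ?_ fun _ _ => rfl
  ext l
  have := Finset.mem_range.1 (Finset.mem_filter.1 hj).1
  simp only [Finset.mem_filter, Finset.mem_Ico]
  omega

theorem sum_lt_fin (j : ℕ) (hj : j < n) (φ : ℕ → ℝ) :
    ∑ i : Fin n, (if (i : ℕ) < j then φ i else 0) = ∑ i ∈ range j, φ i := by
  rw [← Finset.sum_range (fun i => if i < j then φ i else 0), ← Finset.sum_filter]
  refine Finset.sum_congr ?_ fun _ _ => rfl
  ext l
  simp only [Finset.mem_filter, Finset.mem_range]
  omega

/-- sums over the edges of a threshold graph -/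
theorem sum_thresh (G : SimpleGraph (Fin n)) [DecidableRel G.Adj] (e : Equiv.Perm (Fin n))
    (b : ℕ → Prop) [DecidablePred b]
    (hb : ∀ i j : Fin n, i < j → (G.Adj (e i) (e j) ↔ b j))
    (F : Fin n → Fin n → ℝ) (hF : ∀ i j, F i j = F j i) (φ : ℕ → ℕ → ℝ)
    (hφ : ∀ i j : Fin n, i < j → F (e i) (e j) = φ i j) :
    ∑ p ∈ (E n).filter (fun p => G.Adj p.1 p.2), F p.1 p.2 =
      ∑ j ∈ (range n).filter (fun j => b j), ∑ i ∈ range j, φ i j := by
  have h1 := sum_pairs (fun i j => if G.Adj i j then F i j else 0)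
    (fun i j => by simp only [G.adj_comm, hF]) (fun i => by simp)
  have h2 := sum_pairs (fun i j => if G.Adj (e i) (e j) then F (e i) (e j) else 0)
    (fun i j => by simp only [G.adj_comm, hF]) (fun i => by simp)
  have h3 : ∑ i, ∑ j, (if G.Adj (e i) (e j) then F (e i) (e j) else 0) =
      ∑ i, ∑ j, if G.Adj i j then F i j else 0 := by
    rw [← Equiv.sum_comp e (fun i => ∑ j, if G.Adj i j then F i j else 0)]
    refine Finset.sum_congr rfl fun i _ => ?_
    rw [← Equiv.sum_comp e (fun j => if G.Adj (e i) j then F (e i) j else 0)]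
  rw [h3, h1] at h2
  rw [Finset.sum_filter]
  have h4 : ∑ p ∈ E n, (if G.Adj p.1 p.2 then F p.1 p.2 else 0) =
      ∑ p ∈ E n, if G.Adj (e p.1) (e p.2) then F (e p.1) (e p.2) else 0 := by linarith
  rw [h4, ← sum_E (fun i j => if G.Adj (e i) (e j) then F (e i) (e j) else 0), Finset.sum_comm]
  rw [Finset.sum_filter, Finset.sum_range]
  refine Finset.sum_congr rfl fun j _ => ?_
  by_cases hbj : b j
  · rw [if_pos hbj, ← sum_lt_fin (j : ℕ) j.2 (fun i => φ i j)]
    refine Finset.sum_congr rfl fun i _ => ?_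
    by_cases hij : i < j
    · rw [if_pos hij, if_pos ((hb i j hij).2 hbj), if_pos (Fin.lt_def.1 hij), hφ i j hij]
    · rw [if_neg hij, if_neg (fun h => hij (Fin.lt_def.2 h))]
  · rw [if_neg hbj]
    refine Finset.sum_eq_zero fun i _ => ?_
    by_cases hij : i < j
    · rw [if_pos hij, if_neg (fun h => hbj ((hb i j hij).1 h))]
    · rw [if_neg hij]

theorem exists_order {G : SimpleGraph (Fin n)} (h : IsThreshold G) :
    ∃ (e : Equiv.Perm (Fin n)) (b : ℕ → Prop), ∀ i j : Fin n, i < j →
      (G.Adj (e i) (e j) ↔ b j) := by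
  obtain ⟨w', τ, hw'⟩ := h
  set w : Fin n → ℝ := fun i => w' i - τ / 2 with hw
  have hadj : ∀ i j, i ≠ j → (G.Adj i j ↔ 0 < w i + w j) := by
    intro i j hij
    rw [hw' i j hij]
    simp only [hw]
    constructor <;> intro h <;> linarith
  set key : Fin n → ℝ ×ₗ Bool := fun i => toLex (|w i|, decide (w i ≤ 0)) with hkey
  set e := Tuple.sort key with he
  have hmono : Monotone (key ∘ e) := Tuple.monotone_sort key
  refine ⟨e, fun j => ∃ h : j < n, 0 < w (e ⟨j, h⟩), fun i j hij => ?_⟩
  rw [hadj _ _ (fun h => hij.ne (e.injective h))]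
  have h1 : key (e i) ≤ key (e j) := hmono hij.le
  simp only [hkey] at h1
  rw [Prod.Lex.toLex_le_toLex] at h1
  simp only at h1
  have h2 : (∃ h : (j : ℕ) < n, 0 < w (e ⟨j, h⟩)) ↔ 0 < w (e j) :=
    ⟨fun ⟨_, h⟩ => h, fun h => ⟨j.2, h⟩⟩
  refine Iff.trans ?_ h2.symm
  constructor
  · intro h3
    by_contra h4
    push Not at h4
    have h5 : |w (e i)| ≤ |w (e j)| := by
      rcases h1 with h1 | h1
      · exact h1.le
      · exact h1.1.le
    rw [abs_of_nonpos h4] at h5
    linarith [le_abs_self (w (e i))]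
  · intro h3
    rcases h1 with h1 | h1
    · rw [abs_of_pos h3] at h1
      linarith [neg_abs_le (w (e i))]
    · by_cases h4 : w (e i) ≤ 0
      · exfalso
        have h5 := h1.2
        rw [decide_eq_true h4, decide_eq_false (not_le.2 h3)] at h5
        exact absurd h5 (by decide)
      · push Not at h4
        linarith

/-- **Brouwer's inequality holds for threshold graphs.** -/
theorem edgeBound_threshold {G : SimpleGraph (Fin n)} (h : IsThreshold G) (k : ℕ) :
    EdgeBound G k ((k + 1).choose 2) := by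
  classical
  obtain ⟨e, b, hb⟩ := exists_order h
  unfold EdgeBound
  intro s hs
  set hM := G.isHermitian_lapMatrix (R := ℝ) with hMdef
  set v : Fin n → Fin n → ℝ := fun j i => hM.eigenvectorBasis j i with hv
  have hon : ON s v := on_eig hM s
  have h1 : ∑ j ∈ s, hM.eigenvalues j =
      ∑ a ∈ s, ∑ p ∈ (E n).filter (fun p => G.Adj p.1 p.2), (v a p.1 - v a p.2) ^ 2 := by
    rw [sum_eig]
    refine Finset.sum_congr rfl fun a _ => ?_
    have h0 : ∑ i, v a i * (lap (G.adjMatrix ℝ) *ᵥ v a) i =
        ∑ p ∈ (E n).filter (fun p => G.Adj p.1 p.2), (v a p.1 - v a p.2) ^ 2 := by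
      rw [quad_lap _ G.isSymm_adjMatrix, Finset.sum_filter]
      refine Finset.sum_congr rfl fun p _ => ?_
      rw [SimpleGraph.adjMatrix_apply]
      split_ifs <;> simp
    rw [lap_adj] at h0
    exact h0
  set y : Fin n → ℕ → ℝ := fun a => ext0 fun i => v a (e i) with hy
  have h2 : ∀ a, ∑ p ∈ (E n).filter (fun p => G.Adj p.1 p.2), (v a p.1 - v a p.2) ^ 2 =
      ∑ l ∈ Ico 1 n, mu n b l * hel (y a) l := by
    intro a
    rw [← quad_mu]
    refine sum_thresh G e b hb (fun i j => (v a i - v a j) ^ 2) (fun i j => by ring)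
      (fun i j => (y a i - y a j) ^ 2) fun i j _ => ?_
    simp only [hy, ext0_val]
  have h3 : (G.edgeFinset.card : ℝ) = ∑ j ∈ (range n).filter (fun j => b j), (j : ℝ) := by
    have h4 := sum_thresh G e b hb (fun _ _ => 1) (fun i j => rfl) (fun _ _ => 1)
      (fun i j _ => rfl)
    rw [card_edges]
    simpa using h4
  have hnorm : ∀ a ∈ s, ∑ i ∈ range n, y a i ^ 2 = 1 := by
    intro a ha
    have h4 := hon a ha a ha
    simp only [if_true] at h4
    rw [Finset.sum_range, ← h4, ← Equiv.sum_comp e (fun i => v a i * v a i)]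
    refine Finset.sum_congr rfl fun i _ => ?_
    simp only [hy, ext0_val]
    ring
  have hw0 : ∀ l ∈ Ico 1 n, 0 ≤ ∑ a ∈ s, hel (y a) l := fun l _ =>
    Finset.sum_nonneg fun a _ => hel_nonneg _ _
  have hwk : ∑ l ∈ Ico 1 n, ∑ a ∈ s, hel (y a) l ≤ (k : ℝ) := by
    rw [Finset.sum_comm]
    calc ∑ a ∈ s, ∑ l ∈ Ico 1 n, hel (y a) l ≤ ∑ a ∈ s, ∑ i ∈ range n, y a i ^ 2 :=
          Finset.sum_le_sum fun a _ => sum_hel_le _ _
      _ = ∑ _a ∈ s, (1 : ℝ) := Finset.sum_congr rfl hnorm
      _ = k := by simp [hs]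
  have hw1 : ∀ l ∈ Ico 1 n, ∑ a ∈ s, hel (y a) l ≤ 1 := by
    intro l hl
    obtain ⟨hl1, hl2⟩ := Finset.mem_Ico.1 hl
    have hl0 : (0 : ℝ) < l := by exact_mod_cast hl1
    have hq : (0 : ℝ) < (l : ℝ) * (l + 1) := by positivity
    set r := Real.sqrt ((l : ℝ) * (l + 1)) with hr
    have hr2 : r ^ 2 = (l : ℝ) * (l + 1) := Real.sq_sqrt hq.le
    have hr0 : r ≠ 0 := (Real.sqrt_pos.2 hq).ne'
    have hony : ON s fun a i => v a (e i) := by
      intro a ha a' ha'
      rw [← hon a ha a' ha', ← Equiv.sum_comp e (fun i => v a i * v a' i)]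
    set ω : ℕ → ℝ := fun i => ((if i < l then 1 else 0) - l * if i = l then 1 else 0) / r with hω
    have h5 := hony.bessel (fun i => ω i)
    have h6 : ∑ i : Fin n, ω i ^ 2 = 1 := by
      rw [← Finset.sum_range (fun i => ω i ^ 2)]
      have e1 : ∀ i ∈ range n, ω i ^ 2 =
          ((if i < l then 1 else 0) + (l : ℝ) ^ 2 * if i = l then 1 else 0) / r ^ 2 := by
        intro i _
        simp only [hω]
        by_cases h7 : i < l
        · simp only [h7, h7.ne, if_true, if_false]
          ring
        · by_cases h8 : i = l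
          · simp only [h8, lt_irrefl, if_true, if_false]
            ring
          · simp only [h7, h8, if_false]
            ring
      rw [Finset.sum_congr rfl e1, ← Finset.sum_div, Finset.sum_add_distrib, ← Finset.mul_sum,
        Finset.sum_ite_eq', if_pos (Finset.mem_range.2 hl2), Finset.sum_boole]
      have e2 : (range n).filter (fun i => i < l) = range l := by
        ext i
        simp only [Finset.mem_filter, Finset.mem_range]
        omega
      rw [e2, Finset.card_range, hr2, div_eq_one_iff_eq hq.ne']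
      ring
    rw [h6] at h5
    refine le_trans (le_of_eq ?_) h5
    refine Finset.sum_congr rfl fun a _ => ?_
    have e3 : ∑ i : Fin n, v a (e i) * ω i = (∑ i ∈ range l, y a i - l * y a l) / r := by
      have e4 : ∑ i : Fin n, v a (e i) * ω i = ∑ i ∈ range n, y a i * ω i := by
        rw [Finset.sum_range]
        refine Finset.sum_congr rfl fun i _ => ?_
        simp only [hy, ext0_val]
      rw [e4]
      have e5 : ∀ i ∈ range n, y a i * ω i =
          ((if i < l then y a i else 0) - l * if i = l then y a i else 0) / r := by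
        intro i _
        simp only [hω]
        split_ifs <;> ring
      rw [Finset.sum_congr rfl e5, ← Finset.sum_div, Finset.sum_sub_distrib, ← Finset.mul_sum,
        Finset.sum_ite_eq', if_pos (Finset.mem_range.2 hl2), ← Finset.sum_filter]
      have e2 : (range n).filter (fun i => i < l) = range l := by
        ext i
        simp only [Finset.mem_filter, Finset.mem_range]
        omega
      rw [e2]
    rw [e3, div_pow, hr2]
    rfl
  have h7 := weights_le' (Ico 1 n) (mu n b) (fun l => ∑ a ∈ s, hel (y a) l) k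
    (∑ j ∈ (range n).filter (fun j => b j), (j : ℝ) + ((k + 1).choose 2 : ℕ))
    (fun l _ => mu_nonneg n b l) hw0 hw1 hwk (fun t ht htk => sum_mu n b k t ht htk)
  rw [h1, Finset.sum_congr rfl fun a _ => h2 a, Finset.sum_comm, h3]
  refine le_trans (le_of_eq ?_) h7
  exact Finset.sum_congr rfl fun l _ => (Finset.mul_sum _ _ _).symm

end Pool.Agent.K3h87.WB
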